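import Pool.Agent.Helper55.HW.CD

/-!
# Block CE: the breadth first word (MP_074879_pr)
-/

open Finset

namespace HW

/-- concatenation of the forests of children of the roots -/
def Forest.kids : Forest → Forest
  | .nil => .nil
  | .cons c s => c.app s.kids

/-- degrees of the roots -/
def Forest.degs : Forest → List ℕ
  | .nil => []
  | .cons c s => c.len :: s.degs

def bfsF : ℕ → Forest → List ℕ
  | 0, _ => []
  | k + 1, F => F.degs ++ bfsF k F.kids

/-- breadth first word -/
def bfs (T : Forest) : List ℕ := bfsF T.vert T

namespace CE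

theorem app_len (F G : Forest) : (F.app G).len = F.len + G.len := by
  induction F with
  | nil => simp [Forest.app, Forest.len]
  | cons c s _ ih => simp only [Forest.app, Forest.len, ih]; omega

theorem app_vert (F G : Forest) : (F.app G).vert = F.vert + G.vert := by
  induction F with
  | nil => simp [Forest.app, Forest.vert]
  | cons c s _ ih => simp only [Forest.app, Forest.vert, ih]; omega

theorem app_dfw (F G : Forest) : (F.app G).dfw = F.dfw ++ G.dfw := by
  induction F with
  | nil => simp [Forest.app, Forest.dfw]
  | cons c s _ ih => simp only [Forest.app, Forest.dfw, ih]; simp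

theorem app_lev (F G : Forest) (l : ℕ) : (F.app G).lev l = F.lev l + G.lev l := by
  induction F with
  | nil => simp [Forest.app, Forest.lev]
  | cons c s _ ih =>
    cases l with
    | zero => simp only [Forest.app, Forest.lev, ih]; omega
    | succ l => simp only [Forest.app, Forest.lev, ih]; omega

theorem app_inj (F F' G G' : Forest) (hl : F.len = F'.len) (h : F.app G = F'.app G') :
    F = F' ∧ G = G' := by
  induction F generalizing F' with
  | nil =>
    cases F' with
    | nil => exact ⟨rfl, h⟩
    | cons c s => simp [Forest.len] at hl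
  | cons c s _ ih =>
    cases F' with
    | nil => simp [Forest.len] at hl
    | cons c' s' =>
      simp only [Forest.app, Forest.cons.injEq] at h
      simp only [Forest.len, Nat.add_right_cancel_iff] at hl
      obtain ⟨h1, h2⟩ := ih s' hl h.2
      exact ⟨by rw [h.1, h1], h2⟩

theorem vert_eq (F : Forest) : F.vert = F.len + F.kids.vert := by
  induction F with
  | nil => simp [Forest.len, Forest.vert, Forest.kids]
  | cons c s _ ih => simp only [Forest.len, Forest.vert, Forest.kids, app_vert, ih]; omega

theorem degs_length (F : Forest) : F.degs.length = F.len := by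
  induction F with
  | nil => simp [Forest.len, Forest.degs]
  | cons c s _ ih => simp [Forest.len, Forest.degs, ih]

theorem kids_len (F : Forest) : F.kids.len = F.degs.sum := by
  induction F with
  | nil => simp [Forest.len, Forest.degs, Forest.kids]
  | cons c s _ ih => simp [Forest.degs, Forest.kids, app_len, ih]

theorem lev_zero (F : Forest) : F.lev 0 = F.len := by
  induction F with
  | nil => simp [Forest.len, Forest.lev]
  | cons c s _ ih => simp [Forest.len, Forest.lev, ih]

theorem lev_succ (F : Forest) (l : ℕ) : F.lev (l + 1) = F.kids.lev l := by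
  induction F with
  | nil => simp [Forest.lev, Forest.kids]
  | cons c s _ ih => simp [Forest.lev, Forest.kids, app_lev, ih]

theorem eq_nil_of_len (F : Forest) (h : F.len = 0) : F = .nil := by
  cases F with
  | nil => rfl
  | cons c s => simp [Forest.len] at h

theorem len_pos_of_vert (F : Forest) (h : 0 < F.vert) : 0 < F.len := by
  cases F with
  | nil => simp [Forest.vert] at h
  | cons c s => simp [Forest.len]

theorem kids_vert_le (F : Forest) (k : ℕ) (h : F.vert ≤ k + 1) : F.kids.vert ≤ k := by
  have h1 := vert_eq F
  by_cases h0 : F.vert = 0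
  · omega
  · have := len_pos_of_vert F (by omega)
    omega

theorem perm_kids (F : Forest) : F.dfw.Perm (F.degs ++ F.kids.dfw) := by
  induction F with
  | nil => simp [Forest.dfw, Forest.degs, Forest.kids]
  | cons c s _ ih =>
    simp only [Forest.dfw, Forest.degs, Forest.kids, app_dfw, List.cons_append]
    refine List.Perm.cons _ ?_
    calc (c.dfw ++ s.dfw).Perm (c.dfw ++ (s.degs ++ s.kids.dfw)) := List.Perm.append_left _ ih
      _ = c.dfw ++ s.degs ++ s.kids.dfw := by simp
      (_ : List ℕ).Perm (s.degs ++ c.dfw ++ s.kids.dfw) :=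
        List.Perm.append_right _ List.perm_append_comm
      _ = s.degs ++ (c.dfw ++ s.kids.dfw) := by simp

theorem bfsF_perm (k : ℕ) (F : Forest) (h : F.vert ≤ k) : (bfsF k F).Perm F.dfw := by
  induction k generalizing F with
  | zero =>
    cases F with
    | nil => simp [bfsF, Forest.dfw]
    | cons c s => simp [Forest.vert] at h
  | succ k ih =>
    simp only [bfsF]
    exact (List.Perm.append_left _ (ih _ (kids_vert_le F k h))).trans (perm_kids F).symm

theorem eq_of_degs_kids (F G : Forest) (h1 : F.degs = G.degs) (h2 : F.kids = G.kids) : F = G := by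
  induction F generalizing G with
  | nil =>
    cases G with
    | nil => rfl
    | cons c s => simp [Forest.degs] at h1
  | cons c s _ ih =>
    cases G with
    | nil => simp [Forest.degs] at h1
    | cons c' s' =>
      simp only [Forest.degs, List.cons.injEq] at h1
      simp only [Forest.kids] at h2
      obtain ⟨h3, h4⟩ := app_inj _ _ _ _ h1.1 h2
      rw [h3, ih s' h1.2 h4]

theorem bfsF_inj (k : ℕ) (F G : Forest) (hF : F.vert ≤ k) (hG : G.vert ≤ k)
    (hl : F.len = G.len) (h : bfsF k F = bfsF k G) : F = G := by
  induction k generalizing F G with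
  | zero =>
    cases F with
    | nil =>
      cases G with
      | nil => rfl
      | cons c s => simp [Forest.vert] at hG
    | cons c s => simp [Forest.vert] at hF
  | succ k ih =>
    simp only [bfsF] at h
    obtain ⟨h1, h2⟩ := List.append_inj h (by rw [degs_length, degs_length, hl])
    refine eq_of_degs_kids F G h1 (ih _ _ (kids_vert_le F k hF) (kids_vert_le G k hG) ?_ h2)
    rw [kids_len, kids_len, h1]

theorem stp_cons (a : ℕ) (x : List ℕ) : stp (a :: x) = (a : ℤ) - 1 + stp x := by
  simp [stp]

theorem stp_nil : stp [] = 0 := by simp [stp]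

theorem stp_ge (x : List ℕ) : -(x.length : ℤ) ≤ stp x := by
  induction x with
  | nil => simp [stp]
  | cons a x ih => rw [stp_cons]; push_cast [List.length_cons]; omega

theorem stp_eq_sum (x : List ℕ) : stp x = (x.sum : ℤ) - x.length := by
  induction x with
  | nil => simp [stp]
  | cons a x ih => rw [stp_cons, ih]; push_cast [List.length_cons, List.sum_cons]; ring

theorem stp_perm (x y : List ℕ) (h : x.Perm y) : stp x = stp y := by
  rw [stp_eq_sum, stp_eq_sum, h.sum_eq, h.length_eq]

theorem stp_degs (F : Forest) : stp F.degs = (F.kids.len : ℤ) - F.len := by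
  rw [stp_eq_sum, kids_len, degs_length]

theorem take_bfsF_succ (k : ℕ) (F : Forest) (i : ℕ) :
    (bfsF (k + 1) F).take (F.len + i) = F.degs ++ (bfsF k F.kids).take i := by
  simp only [bfsF]
  rw [List.take_append, degs_length, List.take_of_length_le (by rw [degs_length]; omega)]
  congr 2
  omega

theorem bfsF_take (k : ℕ) (F : Forest) (hk : F.vert ≤ k) (i : ℕ) (hi : i < F.vert) :
    -(F.len : ℤ) < stp ((bfsF k F).take i) := by
  induction k generalizing F i with
  | zero => omega
  | succ k ih =>
    by_cases h : i < F.len
    · have h1 : (bfsF (k + 1) F).take i = F.degs.take i := by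
        simp only [bfsF]
        rw [List.take_append_of_le_length (by rw [degs_length]; omega)]
      rw [h1]
      have h2 := stp_ge (F.degs.take i)
      have h3 : (F.degs.take i).length = i := by
        rw [List.length_take, degs_length]; omega
      rw [h3] at h2
      omega
    · obtain ⟨j, rfl⟩ : ∃ j, i = F.len + j := ⟨i - F.len, by omega⟩
      rw [take_bfsF_succ, stp_append, stp_degs]
      have h1 := vert_eq F
      have h2 := ih F.kids (kids_vert_le F k hk) j (by omega)
      omega

theorem bfsF_lev (k : ℕ) (F : Forest) (hk : F.vert ≤ k) (h0 : 0 < F.vert) (l : ℕ) :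
    ∃ i < F.vert, (F.lev l : ℤ) ≤ F.len + stp ((bfsF k F).take i) := by
  induction k generalizing F l with
  | zero => omega
  | succ k ih =>
    cases l with
    | zero => exact ⟨0, h0, by simp [lev_zero, stp_nil]⟩
    | succ l =>
      rw [lev_succ]
      by_cases h : F.kids.vert = 0
      · have h1 : F.kids = .nil := eq_nil_of_len _ (by
          have := vert_eq F.kids
          omega)
        refine ⟨0, h0, ?_⟩
        rw [h1]
        simp [Forest.lev, stp_nil]
      · obtain ⟨i, hi, h1⟩ := ih F.kids (kids_vert_le F k hk) (by omega) l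
        refine ⟨F.len + i, by have := vert_eq F; omega, ?_⟩
        rw [take_bfsF_succ, stp_append, stp_degs]
        omega

end CE

open CE

theorem bfs_perm (T : Forest) : (bfs T).Perm T.dfw := bfsF_perm _ _ le_rfl

theorem bfs_length (T : Forest) : (bfs T).length = T.vert := by
  rw [(bfs_perm T).length_eq, dfw_length]

theorem bfs_inj (T T' : Forest) (h1 : T.len = 1) (h1' : T'.len = 1) (h : bfs T = bfs T') :
    T = T' := by
  have hv : T.vert = T'.vert := by rw [← bfs_length, ← bfs_length, h]
  unfold bfs at h
  rw [← hv] at h
  exact bfsF_inj T.vert T T' le_rfl (le_of_eq hv.symm) (by rw [h1, h1']) h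

theorem bfs_luk (T : Forest) (h1 : T.len = 1) : Luk (bfs T) := by
  refine ⟨?_, ?_⟩
  · rw [stp_perm _ _ (bfs_perm T), stp_dfw, h1]; rfl
  · intro i hi
    rw [bfs_length] at hi
    have := bfsF_take T.vert T le_rfl i hi
    rw [h1] at this
    unfold bfs
    push_cast at this
    omega

/-- the width is the size of the queue (`1 +` partial sum) at some time `i < n` -/
theorem bfs_wid (T : Forest) (h1 : T.len = 1) :
    ∃ i < T.vert, (wid T : ℤ) ≤ 1 + stp ((bfs T).take i) := by
  have h0 : 0 < T.vert := by
    have := vert_eq T
    omega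
  have hne : (range T.vert).Nonempty := ⟨0, by simpa using h0⟩
  obtain ⟨l, _, hl⟩ := Finset.exists_mem_eq_sup (range T.vert) hne T.lev
  obtain ⟨i, hi, h⟩ := bfsF_lev T.vert T le_rfl h0 l
  refine ⟨i, hi, ?_⟩
  unfold wid bfs
  rw [hl]
  rw [h1] at h
  push_cast at h
  exact h

namespace CE

theorem E_const_mul (p : ℕ → ℝ) (K N : ℕ) (c : ℝ) (F : List ℕ → ℝ) :
    E p K N (fun y => c * F y) = c * E p K N F := by
  induction N generalizing F with
  | zero => simp [E]
  | succ N ih =>
    simp only [E]
    rw [Finset.mul_sum]
    refine Finset.sum_congr rfl fun a _ => ?_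
    rw [ih (fun l => F (a :: l))]
    ring

/-- the event for the word `k :: y` -/
def Ev (w0 : ℕ) (c : ℤ) : List ℕ → Prop
  | [] => False
  | k :: y => Incr y c ∨ (w0 : ℤ) < k + 1 + 2 * c

theorem ev_rotate (x : List ℕ) (w0 : ℕ) (c : ℤ) (t : ℕ) (ht : t < x.length)
    (h : (w0 : ℤ) < 1 + stp (x.take t)) (i : ℕ) (hi : i < x.length) : Ev w0 c (x.rotate i) := by
  have hrot : x.rotate i = x[i] :: (x.drop (i + 1) ++ x.take i) := by
    rw [List.rotate_eq_drop_append_take (le_of_lt hi), List.drop_eq_getElem_cons hi]
    rfl
  rw [hrot]
  set D := x.drop (i + 1) with hD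
  set A := x.take i with hA
  set k := x[i] with hk
  have hx : x = A ++ k :: D := by
    rw [hA, hk, hD, ← List.drop_eq_getElem_cons hi, List.take_append_drop]
  have hAl : A.length = i := by rw [hA, List.length_take]; omega
  have hDl : D.length = x.length - (i + 1) := by rw [hD, List.length_drop]
  by_cases hI : Incr (D ++ A) c
  · exact Or.inl hI
  · refine Or.inr ?_
    unfold Incr at hI
    push Not at hI
    have hlen : (D ++ A).length = D.length + A.length := List.length_append
    have hc : 0 ≤ c := by
      have := hI 0 0 le_rfl (Nat.zero_le _)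
      simpa using this
    have htD : (D ++ A).take D.length = D := by
      rw [List.take_append_of_le_length le_rfl, List.take_length]
    by_cases hti : t ≤ i
    · have h1 : x.take t = A.take t := by
        rw [hA, List.take_take, min_eq_left hti]
      have h2 := hI D.length (D.length + t) (by omega) (by omega)
      rw [htD] at h2
      have h3 : (D ++ A).take (D.length + t) = D ++ A.take t := by
        rw [List.take_append, List.take_of_length_le (by omega)]
        congr 2
        omega
      rw [h3, stp_append] at h2
      rw [h1] at h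
      have : (0 : ℤ) ≤ k := by positivity
      omega
    · obtain ⟨j, rfl⟩ : ∃ j, t = i + (j + 1) := ⟨t - i - 1, by omega⟩
      have h1 : x.take (i + (j + 1)) = A ++ k :: D.take j := by
        conv_lhs => rw [hx]
        rw [List.take_append, List.take_of_length_le (by omega)]
        congr 1
        rw [hAl, show i + (j + 1) - i = j + 1 by omega]
        rfl
      rw [h1, stp_append, stp_cons] at h
      have h2 := hI D.length (D.length + A.length) (by omega) (by omega)
      have h3 : (D ++ A).take (D.length + A.length) = D ++ A := by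
        rw [← hlen, List.take_length]
      rw [h3, htD, stp_append] at h2
      have h4 := hI 0 j (Nat.zero_le _) (by omega)
      have h5 : (D ++ A).take j = D.take j := by
        rw [List.take_append_of_le_length (by omega)]
      rw [h5] at h4
      simp only [List.take_zero, stp_nil, sub_zero] at h4
      omega

end CE

/-- C1: width, upper bound (breadth first word; its queue is `1 +` prefix sum; rotation). -/
theorem TM_wid_gt (n K : ℕ) (hn : 1 ≤ n) (hK : n ≤ K) (γ p : ℕ → ℝ) (hγ : ∀ k, 0 ≤ γ k)
    (hp : ∀ k, 0 ≤ p k) (w0 : ℕ) (c : ℤ) :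
    TM n γ p (fun T => w0 < wid T) ≤
      ∑ k ∈ range K, γ k * Pr p K (n - 1)
        (fun y => stp y = -(k : ℤ) ∧ (Incr y c ∨ (w0 : ℤ) < k + 1 + 2 * c)) := by
  classical
  have hWt : ∀ x, 0 ≤ Wt γ p x := by
    intro x
    cases x with
    | nil => exact le_rfl
    | cons k y =>
      refine mul_nonneg (hγ k) (List.prod_nonneg ?_)
      intro a ha
      obtain ⟨b, _, rfl⟩ := List.mem_map.1 ha
      exact hp b
  set Φ : List ℕ → ℝ := fun x => if CE.Ev w0 c x then Wt γ p x else 0 with hΦ
  have hΦ0 : ∀ x, 0 ≤ Φ x := by
    intro x
    simp only [hΦ]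
    split_ifs
    · exact hWt x
    · exact le_rfl
  have hlen : ∀ T ∈ trees n, (bfs T).length = n := by
    intro T hT
    rw [bfs_length]; exact ((mem_trees n T).1 hT).2
  have step1 : TM n γ p (fun T => w0 < wid T) ≤
      ∑ T ∈ trees n, ∑ i ∈ range n, Φ ((bfs T).rotate i) := by
    unfold TM
    refine Finset.sum_le_sum fun T hT => ?_
    split_ifs with hw
    · rw [← symsum_perm γ p _ _ (bfs_perm T), symsum_eq, hlen T hT]
      refine Finset.sum_le_sum fun i hi => ?_
      have hi' : i < n := Finset.mem_range.1 hi
      obtain ⟨t, ht, h⟩ := bfs_wid T ((mem_trees n T).1 hT).1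
      have hev : CE.Ev w0 c ((bfs T).rotate i) := by
        refine CE.ev_rotate (bfs T) w0 c t (by rw [bfs_length]; exact ht) ?_ i
          (by rw [hlen T hT]; exact hi')
        have : (w0 : ℤ) < wid T := by exact_mod_cast hw
        omega
      simp only [hΦ, if_pos hev]
      exact le_rfl
    · exact Finset.sum_nonneg fun i _ => hΦ0 _
  refine step1.trans ((sum_rotate_le n K hn hK Φ hΦ0 bfs ?_ ?_ hlen).trans (le_of_eq ?_))
  · intro T hT T' hT' h
    exact bfs_inj T T' ((mem_trees n T).1 hT).1 ((mem_trees n T').1 hT').1 h
  · intro T hT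
    exact bfs_luk T ((mem_trees n T).1 hT).1
  · obtain ⟨m, rfl⟩ : ∃ m, n = m + 1 := ⟨n - 1, by omega⟩
    simp only [Nat.add_sub_cancel]
    simp only [E, one_mul]
    refine Finset.sum_congr rfl fun k _ => ?_
    unfold Pr
    rw [← E_one_prod p K m, ← CE.E_const_mul]
    congr 1
    funext y
    have e1 : (stp (k :: y) = -1) ↔ (stp y = -(k : ℤ)) := by
      rw [CE.stp_cons]; constructor <;> intro h <;> omega
    simp only [hΦ, CE.Ev, Wt, e1]
    by_cases h1 : stp y = -(k : ℤ)
    · by_cases h2 : Incr y c ∨ (w0 : ℤ) < k + 1 + 2 * c
      · simp [h1, h2]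
      · simp [h1, h2]
    · simp [h1]

end HW
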